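import Mathlib
import Pool.Agent.Helper38.Canonical

set_option autoImplicit false
open Set MeasureTheory

/-!
# A harmonic function with fully supported energy measure on the Sierpinski carpet

Let `K` be the standard Sierpinski carpet with its self-similar measure `μ` and let `D = (E, F)`
be a self-similar, local, regular, conservative Dirichlet form on `L²(K, μ)` all of whose
functions have continuous versions, in particular the canonical form. Then there is a function
`h` in `F`, harmonic on `K ∖ V₀`, whose energy measure exists and has full support.

Idea of the proof. Let `h` be the potential of a unit current from `p` to `q`, two points of `V₀`.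
If `h` were constant `= t` on a cell, one removes finite unions of cells from the interior of
`{h = t}`. On the remaining network the signs of small perturbations of `h - t` at four boundary
points cannot be prescribed arbitrarily, since this would give a planar drawing of the complete
graph on five vertices. By duality a combination of four Green functions is constant on
`{h ≠ t}`, so certain spaces of Green functions have rank at most three on the boundary of the
removed set. Choosing four points of the frontier this yields a function of small energy with
prescribed nonzero current at one of the four points, a contradiction.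
-/

namespace Pool.Agent.Results.MP_1521c4_an.DipoleFullSupport

open Pool.Agent.Helper38.Carpet

/-- There is a function `h`, harmonic on `K ∖ V₀`, whose energy measure exists and has full
support. -/
theorem result (μ : Measure KK) (hμ : IsSelfSimilarMeasure μ) (D : CarpetForm μ) :
    ∃ h : C(KK, ℝ), D.IsHarmonic h ∧ (∃ ν : Measure KK, D.IsEnergyMeasure h ν) ∧
      ∀ ν : Measure KK, D.IsEnergyMeasure h ν →
        ∀ U : Set KK, IsOpen U → U.Nonempty → 0 < ν U := by
  have hp : ((0:ℝ), (0:ℝ)) ∈ K := by apply boundary_mem <;> norm_num
  have hq : ((1:ℝ), (0:ℝ)) ∈ K := by apply boundary_mem <;> norm_num
  have hpq : (⟨_, hp⟩ : KK) ≠ ⟨_, hq⟩ := by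
    intro h
    have := congrArg (fun z : KK => z.1.1) h
    norm_num at this
  obtain ⟨h, hF, h1, h2, h3⟩ := dipole_full hμ D hpq
  refine ⟨h, ⟨hF, ?_⟩, h2, h3⟩
  intro g hgF hg
  rw [h1 g hgF, hg ⟨_, hp⟩ (Or.inl rfl), hg ⟨_, hq⟩ (Or.inr (Or.inl rfl)), sub_zero]

end Pool.Agent.Results.MP_1521c4_an.DipoleFullSupport
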